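import Pool.Agent.Helper29.E3.St1

/-!
Project E3 (MP_3923f3_nt), module GHP: the points `D h / q`.
-/

set_option autoImplicit false

namespace Pool.Agent.Helper55.E3

open Finset
open Pool.Agent.Helper29.E3

theorem per_nat (F : ℝ → ℝ) (hF : ∀ t, F (t + 1) = F t) (t : ℝ) (n : ℕ) : F (t + n) = F t := by
  induction n with
  | zero => simp
  | succ n ih => rw [Nat.cast_succ, ← add_assoc, hF, ih]

theorem sum_periodic (G : ℕ → ℝ) (n : ℕ) (hG : ∀ k, G (k + n) = G k) (g : ℕ) :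
    ∑ h ∈ range (g * n), G h = g * ∑ a ∈ range n, G a := by
  have hG' : ∀ m k, G (m * n + k) = G k := by
    intro m
    induction m with
    | zero => intro k; simp
    | succ m ih =>
      intro k
      have e : (m + 1) * n + k = (m * n + k) + n := by ring
      rw [e, hG, ih]
  induction g with
  | zero => simp
  | succ g ih =>
    have e : (g + 1) * n = g * n + n := by ring
    rw [e, Finset.sum_range_add, ih, Finset.sum_congr rfl (fun x _ => hG' g x)]
    push_cast
    ring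

theorem sum_perm (f : ℕ → ℝ) (c n : ℕ) (hn : 1 ≤ n) (hc : Nat.Coprime c n) :
    ∑ a ∈ range n, f (c * a % n) = ∑ a ∈ range n, f a := by
  classical
  have hinj : Set.InjOn (fun a => c * a % n) (range n : Finset ℕ) := by
    intro a ha b hb h
    have ha' : a < n := Finset.mem_range.1 (Finset.mem_coe.1 ha)
    have hb' : b < n := Finset.mem_range.1 (Finset.mem_coe.1 hb)
    have h1 : c * a ≡ c * b [MOD n] := h
    have h2 : a ≡ b [MOD n] := Nat.ModEq.cancel_left_of_coprime (by rwa [Nat.gcd_comm]) h1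
    have h3 : a % n = b % n := h2
    rwa [Nat.mod_eq_of_lt ha', Nat.mod_eq_of_lt hb'] at h3
  have himg : (range n).image (fun a => c * a % n) = range n := by
    apply Finset.eq_of_subset_of_card_le
    · intro x hx
      obtain ⟨a, _, rfl⟩ := Finset.mem_image.1 hx
      exact Finset.mem_range.2 (Nat.mod_lt _ (by omega))
    · rw [Finset.card_image_of_injOn hinj]
  calc ∑ a ∈ range n, f (c * a % n) = ∑ x ∈ (range n).image (fun a => c * a % n), f x :=
        (Finset.sum_image hinj).symm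
    _ = ∑ a ∈ range n, f a := by rw [himg]

/-- GHP (statement `StGHP` of project E3) -/
theorem hGHP : StGHP := by
  intro D q F hD hq hF
  obtain ⟨D', hD'⟩ := Nat.gcd_dvd_left D q
  obtain ⟨q', hq'⟩ := Nat.gcd_dvd_right D q
  have hg : 0 < Nat.gcd D q := Nat.gcd_pos_of_pos_left q (by omega)
  have hcop : Nat.Coprime D' q' := by
    have h1 : Nat.gcd (Nat.gcd D q * D') (Nat.gcd D q * q') = Nat.gcd D q := by rw [← hD', ← hq']
    rw [Nat.gcd_mul_left] at h1
    exact Nat.eq_of_mul_eq_mul_left hg (by rw [h1, mul_one])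
  have hdiv : q / Nat.gcd D q = q' := by
    rw [Nat.div_eq_iff_eq_mul_right hg (Nat.gcd_dvd_right D q)]
    exact hq'
  have hq0 : 1 ≤ q' := by
    rcases Nat.eq_zero_or_pos q' with h | h
    · rw [h, mul_zero] at hq'
      omega
    · exact h
  have hgR : (Nat.gcd D q : ℝ) ≠ 0 := Nat.cast_ne_zero.2 hg.ne'
  have hqR : (q' : ℝ) ≠ 0 := Nat.cast_ne_zero.2 (by omega)
  have hDR : (D : ℝ) = (Nat.gcd D q : ℝ) * D' := by exact_mod_cast hD'
  have hqR' : (q : ℝ) = (Nat.gcd D q : ℝ) * q' := by exact_mod_cast hq'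
  have e1 : ∀ h : ℕ, (D : ℝ) * h / q = (D' : ℝ) * h / q' := by
    intro h
    rw [hDR, hqR', mul_assoc, mul_div_mul_left _ _ hgR]
  rw [hdiv]
  have s1 : ∑ h ∈ range q, F ((D : ℝ) * h / q) = ∑ h ∈ range (Nat.gcd D q * q'), F ((D' : ℝ) * h / q') := by
    rw [← hq']
    exact Finset.sum_congr rfl fun h _ => by rw [e1 h]
  have s2 : ∀ k : ℕ, F ((D' : ℝ) * ((k + q' : ℕ) : ℝ) / q') = F ((D' : ℝ) * (k : ℝ) / q') := by
    intro k
    have e : (D' : ℝ) * ((k + q' : ℕ) : ℝ) / q' = (D' : ℝ) * (k : ℝ) / q' + D' := by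
      push_cast
      field_simp
    rw [e, per_nat F hF]
  rw [s1, sum_periodic (fun h : ℕ => F ((D' : ℝ) * (h : ℝ) / q')) q' s2]
  congr 1
  rw [← sum_perm (fun a : ℕ => F ((a : ℝ) / q')) D' q' hq0 hcop]
  refine Finset.sum_congr rfl fun a _ => ?_
  have e2 : (D' : ℝ) * (a : ℝ) / q' = ((D' * a % q' : ℕ) : ℝ) / q' + ((D' * a / q' : ℕ) : ℝ) := by
    have h1 : ((q' * (D' * a / q') + D' * a % q' : ℕ) : ℝ) = ((D' * a : ℕ) : ℝ) := by
      rw [Nat.div_add_mod]
    have h2 : (D' : ℝ) * (a : ℝ) = (q' : ℝ) * ((D' * a / q' : ℕ) : ℝ) + ((D' * a % q' : ℕ) : ℝ) := by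
      rw [← Nat.cast_mul, ← h1]
      push_cast
      ring
    rw [h2, add_div, mul_div_cancel_left₀ _ hqR]
    ring
  show F ((D' : ℝ) * (a : ℝ) / q') = F (((D' * a % q' : ℕ) : ℝ) / q')
  rw [e2, per_nat F hF]

end Pool.Agent.Helper55.E3
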